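import Pool.Agent.Q75.BS.Stm

/-!
# Project BS (helper75), JOB FOL: a ball in which no orbit hits a vertex moves rigidly
-/

set_option autoImplicit false

namespace Pool.Agent.Q150.BS

open Complex Set MeasureTheory Filter Topology Pool.Agent.W780.PG Pool.Agent.W780.BB
open Pool.Agent.TH103.BL Pool.Agent.Q75.BS

open scoped Real ComplexConjugate

variable {n : ℕ} {p : Fin (n + 3) → ℂ} {z : ℂ} {θ : ℝ} {u : ℕ → Fin (n + 3)} {t : ℕ → ℝ}

/-- the time when the `k`-th ray of the itinerary, starting from `z'`, meets the line of the side `u k` -/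
noncomputable def Tm (p : Fin (n + 3) → ℂ) (θ : ℝ) (u : ℕ → Fin (n + 3)) (z' : ℂ) (k : ℕ) : ℝ :=
  - sf p (u k) (srcs p z' u k) / sl p (u k) (angs p θ u k)

/-- the corresponding point -/
noncomputable def Pt (p : Fin (n + 3) → ℂ) (θ : ℝ) (u : ℕ → Fin (n + 3)) (z' : ℂ) (k : ℕ) : ℂ :=
  srcs p z' u k + Tm p θ u z' k • dir (angs p θ u k)

/-- `z'` follows the itinerary up to the `K`-th reflection -/
structure Good (p : Fin (n + 3) → ℂ) (θ : ℝ) (u : ℕ → Fin (n + 3)) (z' : ℂ) (K : ℕ) : Prop where
  hit : ∀ k < K, Pt p θ u z' k ∈ side p (u k)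
  mono : ∀ k < K, tp (Tm p θ u z') k < Tm p θ u z' k

theorem sf_Pt (hp : IsConvexPolygon p) (O : Orb p z θ u t) (z' : ℂ) (k : ℕ) :
    sf p (u k) (Pt p θ u z' k) = 0 := by
  have h := sl_neg hp O k
  unfold Pt
  rw [sf_ray]
  unfold Tm
  rw [div_mul_cancel₀ _ h.ne]
  ring

theorem Pt_next (hp : IsConvexPolygon p) (O : Orb p z θ u t) (z' : ℂ) (k : ℕ) :
    srcs p z' u (k + 1) + Tm p θ u z' k • dir (angs p θ u (k + 1)) = Pt p θ u z' k := by
  show rf p (u k) (srcs p z' u k) + Tm p θ u z' k • dir (2 * tau p (u k) - angs p θ u k) = _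
  rw [← rf_ray hp]
  exact rf_fix hp _ _ (sf_Pt hp O z' k)

theorem Tm_center (hp : IsConvexPolygon p) (O : Orb p z θ u t) : Tm p θ u z = t := by
  funext k
  have h := sl_neg hp O k
  have h1 : sf p (u k) (srcs p z u k + t k • dir (angs p θ u k)) = 0 := side_zero hp (O.hit k)
  rw [sf_ray] at h1
  unfold Tm
  rw [div_eq_iff h.ne]
  linarith

theorem good_nonneg {z' : ℂ} : ∀ {K : ℕ}, Good p θ u z' K → 0 ≤ tp (Tm p θ u z') K := by
  intro K
  induction K with
  | zero => intro _; exact le_rfl
  | succ K ih =>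
    intro h
    have h1 := ih ⟨fun k hk => h.hit k (by omega), fun k hk => h.mono k (by omega)⟩
    have h2 := h.mono K (by omega)
    show 0 ≤ Tm p θ u z' K
    linarith

theorem good_le {z' : ℂ} : ∀ {K : ℕ}, Good p θ u z' K → ∀ k < K, Tm p θ u z' k ≤ tp (Tm p θ u z') K := by
  intro K
  induction K with
  | zero => intro _ k hk; omega
  | succ K ih =>
    intro h k hk
    show Tm p θ u z' k ≤ Tm p θ u z' K
    rcases Nat.lt_or_ge k K with h0 | h0
    · have h1 := ih ⟨fun k hk => h.hit k (by omega), fun k hk => h.mono k (by omega)⟩ k h0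
      have h2 := h.mono K (by omega)
      linarith
    · have h1 : k = K := by omega
      rw [h1]

theorem fp_word (hp : IsConvexPolygon p) (z' : ℂ) (θ s : ℝ) (u : ℕ → Fin (n + 3)) (K : ℕ) :
    fp p ((List.range K).map u) (z' + s • dir θ) = srcs p z' u K + s • dir (angs p θ u K) := by
  have h1 := (hR n p hp).2.2.2.2.2.2.2.2.1 ((List.range K).map u) (z' + s • dir θ) θ
  rw [← h1, fd_word hp]

/-- between the reflections the ray is inside -/
theorem between (hp : IsConvexPolygon p) (O : Orb p z θ u t) {z' : ℂ} (hz' : z' ∈ reg p) {K : ℕ}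
    (hG : Good p θ u z' K) (hc : Pt p θ u z' K ∈ creg p) {s : ℝ}
    (h1 : tp (Tm p θ u z') K < s) (h2 : s < Tm p θ u z' K) :
    srcs p z' u K + s • dir (angs p θ u K) ∈ reg p := by
  intro j
  show 0 < sf p j (srcs p z' u K + s • dir (angs p θ u K))
  have hend : 0 ≤ sf p j (Pt p θ u z' K) := hc j
  unfold Pt at hend
  rw [sf_ray] at hend ⊢
  cases K with
  | zero =>
    have h3 : 0 < sf p j (srcs p z' u 0) := hz' j
    have h4 : (0 : ℝ) < s := h1
    have h5 : 0 < Tm p θ u z' 0 := h4.trans h2
    have h6 : 0 < Tm p θ u z' 0 * (sf p j (srcs p z' u 0) + s * sl p j (angs p θ u 0)) := by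
      have e : Tm p θ u z' 0 * (sf p j (srcs p z' u 0) + s * sl p j (angs p θ u 0)) =
          (Tm p θ u z' 0 - s) * sf p j (srcs p z' u 0) +
          s * (sf p j (srcs p z' u 0) + Tm p θ u z' 0 * sl p j (angs p θ u 0)) := by ring
      rw [e]
      have h7 := mul_pos (sub_pos.2 h2) h3
      have h8 := mul_nonneg h4.le hend
      linarith
    exact (mul_pos_iff_of_pos_left h5).1 h6
  | succ k =>
    have hk : Tm p θ u z' k < s := h1
    have hhit := hG.hit k (Nat.lt_succ_self k)
    rw [← Pt_next hp O] at hhit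
    by_cases hj : j = u k
    · have h3 := side_zero hp hhit
      rw [sf_ray] at h3
      have h4 := (pt_zero_next hp O k).2
      have e : sf p j (srcs p z' u (k + 1)) + s * sl p j (angs p θ u (k + 1)) =
          (s - Tm p θ u z' k) * sl p (u k) (angs p θ u (k + 1)) := by
        rw [hj]
        linarith
      rw [e]
      exact mul_pos (sub_pos.2 hk) h4
    · have h3 := side_pos hp hhit hj
      rw [sf_ray] at h3
      have h6 : 0 < (Tm p θ u z' (k + 1) - Tm p θ u z' k) *
          (sf p j (srcs p z' u (k + 1)) + s * sl p j (angs p θ u (k + 1))) := by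
        have e : (Tm p θ u z' (k + 1) - Tm p θ u z' k) *
            (sf p j (srcs p z' u (k + 1)) + s * sl p j (angs p θ u (k + 1))) =
            (Tm p θ u z' (k + 1) - s) *
              (sf p j (srcs p z' u (k + 1)) + Tm p θ u z' k * sl p j (angs p θ u (k + 1))) +
            (s - Tm p θ u z' k) *
              (sf p j (srcs p z' u (k + 1)) + Tm p θ u z' (k + 1) * sl p j (angs p θ u (k + 1))) := by ring
        rw [e]
        have h7 := mul_pos (sub_pos.2 h2) h3
        have h8 := mul_nonneg (sub_pos.2 hk).le hend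
        linarith
      exact (mul_pos_iff_of_pos_left (by linarith)).1 h6

theorem srcs_cont (u : ℕ → Fin (n + 3)) (k : ℕ) : Continuous fun z' : ℂ => srcs p z' u k := by
  induction k with
  | zero => exact continuous_id
  | succ k ih => exact (Pool.Agent.W762.BB.rf_cont p (u k)).comp ih

theorem Tm_cont (θ : ℝ) (u : ℕ → Fin (n + 3)) (k : ℕ) : Continuous fun z' : ℂ => Tm p θ u z' k := by
  unfold Tm
  exact ((sf_cont p (u k)).comp (srcs_cont u k)).neg.div_const _

theorem tp_cont (θ : ℝ) (u : ℕ → Fin (n + 3)) (k : ℕ) :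
    Continuous fun z' : ℂ => tp (Tm p θ u z') k := by
  cases k with
  | zero => exact continuous_const
  | succ k => exact Tm_cont θ u k

theorem Pt_cont (θ : ℝ) (u : ℕ → Fin (n + 3)) (k : ℕ) : Continuous fun z' : ℂ => Pt p θ u z' k := by
  unfold Pt
  exact (srcs_cont u k).add ((Tm_cont θ u k).smul continuous_const)

/-- the set of the points which make the next step -/
def Nx (p : Fin (n + 3) → ℂ) (θ : ℝ) (u : ℕ → Fin (n + 3)) (K : ℕ) : Set ℂ :=
  {z' | (∀ j, j ≠ u K → 0 < sf p j (Pt p θ u z' K)) ∧ tp (Tm p θ u z') K < Tm p θ u z' K}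

theorem Nx_open (p : Fin (n + 3) → ℂ) (θ : ℝ) (u : ℕ → Fin (n + 3)) (K : ℕ) : IsOpen (Nx p θ u K) := by
  have h1 : Nx p θ u K = (⋂ j, {z' : ℂ | j ≠ u K → 0 < sf p j (Pt p θ u z' K)}) ∩
      {z' | tp (Tm p θ u z') K < Tm p θ u z' K} := by
    ext z'
    simp only [Nx, mem_inter_iff, mem_iInter, mem_ofPred_eq]
  rw [h1]
  refine (isOpen_iInter_of_finite fun j => ?_).inter (isOpen_lt (tp_cont θ u K) (Tm_cont θ u K))
  by_cases hj : j = u K
  · have : {z' : ℂ | j ≠ u K → 0 < sf p j (Pt p θ u z' K)} = univ := by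
      ext y; simp [hj]
    rw [this]
    exact isOpen_univ
  · have : {z' : ℂ | j ≠ u K → 0 < sf p j (Pt p θ u z' K)} = {z' : ℂ | 0 < sf p j (Pt p θ u z' K)} := by
      ext y; simp [hj]
    rw [this]
    exact isOpen_lt continuous_const ((sf_cont p j).comp (Pt_cont θ u K))

theorem Nx_closure {K : ℕ} {z' : ℂ} (h : z' ∈ closure (Nx p θ u K)) :
    (∀ j, j ≠ u K → 0 ≤ sf p j (Pt p θ u z' K)) ∧ tp (Tm p θ u z') K ≤ Tm p θ u z' K := by
  constructor
  · intro j hj
    have h1 : IsClosed {z' : ℂ | 0 ≤ sf p j (Pt p θ u z' K)} :=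
      isClosed_le continuous_const ((sf_cont p j).comp (Pt_cont θ u K))
    exact closure_minimal (fun y hy => (hy.1 j hj).le) h1 h
  · have h1 : IsClosed {z' : ℂ | tp (Tm p θ u z') K ≤ Tm p θ u z' K} :=
      isClosed_le (tp_cont θ u K) (Tm_cont θ u K)
    exact closure_minimal (fun y hy => hy.2.le) h1 h

theorem follow (hp : IsConvexPolygon p) (O : Orb p z θ u t) {ρ : ℝ} (hρ : 0 < ρ)
    (hb : Metric.ball z ρ ⊆ reg p)
    (hv : ∀ z' ∈ Metric.ball z ρ, ∀ (K : ℕ) (s : ℝ) (j : Fin (n + 3)), 0 < s →
      fp p ((List.range K).map u) (z' + s • dir θ) = p j →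
      ¬ (∀ᶠ s' in 𝓝[<] s, Ch p ((List.range K).map u) z' (z' + s' • dir θ))) :
    ∀ K : ℕ, ∀ z' ∈ Metric.ball z ρ, Good p θ u z' K := by
  intro K
  induction K with
  | zero => exact fun z' _ => ⟨fun k hk => absurd hk (Nat.not_lt_zero k), fun k hk => absurd hk (Nat.not_lt_zero k)⟩
  | succ K ih =>
    have hsub : Metric.ball z ρ ⊆ Nx p θ u K := by
      refine (Metric.isPreconnected_ball).subset_of_closure_inter_subset (Nx_open p θ u K) ?_ ?_
      · refine ⟨z, Metric.mem_ball_self hρ, ?_, ?_⟩
        · intro j hj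
          have h1 := side_pos hp (O.hit K) hj
          unfold Pt
          rw [Tm_center hp O]
          exact h1
        · rw [Tm_center hp O]
          exact tp_lt O K
      · rintro z' ⟨hcl, hz'⟩
        obtain ⟨h1, h2⟩ := Nx_closure hcl
        have hG := ih z' hz'
        have hz'r := hb hz'
        have h3 : Pt p θ u z' K ∈ creg p := by
          intro j
          by_cases hj : j = u K
          · rw [hj]
            exact (sf_Pt hp O z' K).ge
          · exact h1 j hj
        have h4 : tp (Tm p θ u z') K < Tm p θ u z' K := by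
          refine lt_of_le_of_ne h2 ?_
          cases K with
          | zero =>
            intro h5
            have h6 : 0 < sf p (u 0) z' := hz'r (u 0)
            have h7 : Tm p θ u z' 0 = 0 := h5.symm
            unfold Tm at h7
            rcases div_eq_zero_iff.1 h7 with h8 | h8
            · have h9 : - sf p (u 0) z' = 0 := h8
              linarith
            · exact (sl_neg hp O 0).ne h8
          | succ k =>
            intro h5
            have h6 : Tm p θ u z' (k + 1) = Tm p θ u z' k := h5.symm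
            have h7 : Pt p θ u z' (k + 1) = Pt p θ u z' k := by
              rw [← Pt_next hp O z' k]
              unfold Pt
              rw [h6]
            have h8 := side_pos hp (hG.hit k (Nat.lt_succ_self k)) (u_ne hp O k)
            rw [← h7, sf_Pt hp O] at h8
            exact lt_irrefl _ h8
        have h5 : ∀ j, Pt p θ u z' K ≠ p j := by
          intro j hj
          have h6 : 0 < Tm p θ u z' K := (good_nonneg hG).trans_lt h4
          refine hv z' hz' K (Tm p θ u z' K) j h6 ?_ ?_
          · rw [fp_word hp]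
            exact hj
          · filter_upwards [Ioo_mem_nhdsLT h4] with s' hs'
            have h7 := ch_of hp K u (Tm p θ u z') z' θ 0 s' (fun k hk => hG.hit k hk)
              (fun k _ => sl_neg hp O k) (fun hK => hG.mono 0 hK)
              (fun k hk => hG.mono (k + 1) hk) (fun k hk => (good_le hG k hk).trans_lt hs'.1)
              (between hp O hz'r hG h3 hs'.1 hs'.2)
            rwa [zero_smul, add_zero] at h7
        have h6 := (hB n p hp).2.2.2.2.2.2.2.2.2.2.1 _ h3 (u K) (sf_Pt hp O z' K) h5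
        exact ⟨fun j hj => h6.2 j hj, h4⟩
    intro z' hz'
    have h1 := hsub hz'
    have hG := ih z' hz'
    refine ⟨?_, ?_⟩
    · intro k hk
      rcases Nat.lt_or_ge k K with h0 | h0
      · exact hG.hit k h0
      · have h2 : k = K := by omega
        rw [h2]
        exact Pool.Agent.W82.BB.mem_side hp (sf_Pt hp O z' K) h1.1
    · intro k hk
      rcases Nat.lt_or_ge k K with h0 | h0
      · exact hG.mono k h0
      · have h2 : k = K := by omega
        rw [h2]
        exact h1.2

theorem t_FOL : S_FOL := by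
  intro n p hp z θ u t O ρ hρ hb hv K s j hs1 hs2
  by_contra hcon
  push Not at hcon
  have hF := follow hp O hρ hb hv
  obtain ⟨-, -, -, -, -, -, hfu, hfn, -, -, -, -⟩ := hR n p hp
  obtain ⟨w, hw⟩ : ∃ w, w = (List.range K).map u := ⟨_, rfl⟩
  obtain ⟨z', hz'⟩ : ∃ z', z' = uf p w (p j) - s • dir θ := ⟨_, rfl⟩
  have e1 : z' + s • dir θ = uf p w (p j) := by
    rw [hz']
    ring
  have e2 : fp p w (z' + s • dir θ) = p j := by
    rw [e1]
    exact (hfu w (p j)).1
  have hmem : z' ∈ Metric.ball z ρ := by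
    rw [Metric.mem_ball, dist_eq_norm]
    have e3 : z' - z = (z' + s • dir θ) - (z + s • dir θ) := by ring
    rw [e3, ← hfn w, e2, hw, fp_word hp, norm_sub_rev]
    exact hcon
  have hG := hF (K + 1) z' hmem
  have hz'r := hb hmem
  have e4 : srcs p z' u K + s • dir (angs p θ u K) = p j := by
    rw [← fp_word hp, ← hw]
    exact e2
  have hpj : p j ∈ creg p := vert_mem hp j
  have hnv : ∀ i, p j ∉ side p i := fun i => (hB n p hp).2.2.2.2.2.2.2.2.2.2.2.1 i j
  have hGK : Good p θ u z' K := ⟨fun k hk => hG.hit k (by omega), fun k hk => hG.mono k (by omega)⟩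
  have hhit := hG.hit K (Nat.lt_succ_self K)
  have hc : Pt p θ u z' K ∈ creg p := side_sub_creg hp _ hhit
  -- before the end
  have hlt : s < Tm p θ u z' K := by
    have h1 : 0 ≤ sf p (u K) (p j) := hpj (u K)
    have h2 := sl_neg hp O K
    have h3 := sf_Pt hp O z' K
    rw [← e4, sf_ray] at h1
    unfold Pt at h3
    rw [sf_ray] at h3
    rcases lt_trichotomy s (Tm p θ u z' K) with h4 | h4 | h4
    · exact h4
    · exfalso
      apply hnv (u K)
      rw [← e4, h4]
      exact hhit
    · exfalso
      have h5 := mul_neg_of_pos_of_neg (sub_pos.2 h4) h2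
      have h6 : (s - Tm p θ u z' K) * sl p (u K) (angs p θ u K) =
          (sf p (u K) (srcs p z' u K) + s * sl p (u K) (angs p θ u K)) -
          (sf p (u K) (srcs p z' u K) + Tm p θ u z' K * sl p (u K) (angs p θ u K)) := by ring
      rw [h6, h3] at h5
      linarith
  -- after the beginning
  have hgt : tp (Tm p θ u z') K < s := by
    cases K with
    | zero => exact hs1
    | succ k =>
      show Tm p θ u z' k < s
      have hh := hG.hit k (by omega)
      rw [← Pt_next hp O] at hh
      have h3 := side_zero hp hh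
      have h2 := (pt_zero_next hp O k).2
      have h1 : 0 ≤ sf p (u k) (p j) := hpj (u k)
      rw [← e4, sf_ray] at h1
      rw [sf_ray] at h3
      rcases lt_trichotomy (Tm p θ u z' k) s with h4 | h4 | h4
      · exact h4
      · exfalso
        apply hnv (u k)
        rw [← e4, ← h4]
        exact hh
      · exfalso
        have h5 := mul_pos (sub_pos.2 h4) h2
        have h6 : (Tm p θ u z' k - s) * sl p (u k) (angs p θ u (k + 1)) =
            (sf p (u k) (srcs p z' u (k + 1)) + Tm p θ u z' k * sl p (u k) (angs p θ u (k + 1))) -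
            (sf p (u k) (srcs p z' u (k + 1)) + s * sl p (u k) (angs p θ u (k + 1))) := by ring
        rw [h6, h3] at h5
        linarith
  have h1 := between hp O hz'r hGK hc hgt hlt
  rw [e4] at h1
  have h2 : 0 < sf p j (p j) := h1 j
  rw [Pool.Agent.W82.BB.sf_vertex_left] at h2
  exact lt_irrefl _ h2

end Pool.Agent.Q150.BS
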